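import Pool.Agent.helper23.F2.Spec

/-! Row f2:THM1 (MP_26dbae_co): the closure theorem. -/

set_option autoImplicit false

open scoped BigOperators

namespace Pool.Agent.F2

open Pool.Agent.helper23.TH

theorem THM1 (hCL1 : CL1_stmt) (hCL2 : CL2_stmt) (hCL3 : CL3_stmt) (hAL11 : AL11_stmt) (hAL12 : AL12_stmt) (hCL8 : CL8_stmt) (hCL9 : CL9_stmt) (hCL10 : CL10_stmt) : THM1_stmt := by
  intro H t a ht ha0 ha1 hE hST b s
  have hW : Nonempty H.W := by
    obtain ⟨e⟩ := hE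
    exact ⟨(H.ed e).1⟩
  have htr : (1 : ℝ) ≤ t := by exact_mod_cast ht
  have hden : (1 : ℝ) < (t : ℝ) + 1 - a := by linarith
  set α : ℝ := 1 / ((t : ℝ) + 1 - a) with hαdef
  have hα0 : 0 < α := by
    rw [hαdef]
    apply div_pos one_pos
    linarith
  have hα1 : α ≤ 1 := by
    rw [hαdef, div_le_one (by linarith)]
    linarith
  obtain ⟨κ, hκ, h2⟩ := hCL2 α hα0 hα1
  obtain ⟨C, hC, h11⟩ := hAL11 H t b s hW ht
  obtain ⟨q, c, D₀, hq, hc, hD₀, h8⟩ := hCL8 t b s κ C hκ hC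
  have hqr : (0 : ℝ) < q := by exact_mod_cast hq
  obtain ⟨K, hK, hH⟩ := hST ((2 * t + 3) * b) q
  obtain ⟨K', hK', h10⟩ := hCL10 t a K κ (c / q) ht ha0 ha1 hK hκ (div_pos hc hqr)
  obtain ⟨C₁, hC₁, h2'⟩ := h2 (max K' D₀) (lt_of_lt_of_le hK' (le_max_left _ _))
  refine ⟨C₁ + 2 * (b * s), by positivity, ?_⟩
  intro V L _ _ G hV hsum
  obtain ⟨G', hT, hs', hcf⟩ := hCL1 V L b s G
  have hN1 : (1 : ℝ) ≤ (Fintype.card V : ℝ) := by exact_mod_cast hV
  have hNpow : (Fintype.card V : ℝ) ≤ (Fintype.card V : ℝ) ^ (1 + α) := by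
    calc (Fintype.card V : ℝ) = (Fintype.card V : ℝ) ^ (1 : ℝ) := (Real.rpow_one _).symm
      _ ≤ (Fintype.card V : ℝ) ^ (1 + α) := Real.rpow_le_rpow_of_exponent_le hN1 (by linarith)
  have hsum' : C₁ * (Fintype.card V : ℝ) ^ (1 + α) ≤ ∑ v, (dg G'.A Finset.univ v : ℝ) := by
    have hbs : (0 : ℝ) ≤ 2 * ((b : ℝ) * s) := by positivity
    have h1 := mul_le_mul_of_nonneg_left hNpow hbs
    nlinarith [hsum, hs', h1]
  obtain ⟨U, D, hU, hUD, hreg⟩ := h2' V L b s G' hV hsum'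
  have hcardU : Fintype.card {x // x ∈ U} = U.card := Fintype.card_coe U
  have hUpos : 0 < U.card := Finset.card_pos.mpr hU
  have hU1 : (1 : ℝ) ≤ (U.card : ℝ) := by exact_mod_cast hUpos
  have hUpow : (1 : ℝ) ≤ (U.card : ℝ) ^ α := Real.one_le_rpow hU1 hα0.le
  have hDK' : K' * (U.card : ℝ) ^ α ≤ D :=
    le_trans (mul_le_mul_of_nonneg_right (le_max_left _ _) (by positivity)) hUD
  have hDD₀ : D₀ ≤ D := by
    refine le_trans ?_ hUD
    calc D₀ = D₀ * 1 := (mul_one _).symm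
      _ ≤ max K' D₀ * (U.card : ℝ) ^ α :=
        mul_le_mul (le_max_right _ _) hUpow zero_le_one (le_trans hD₀.le (le_max_right _ _))
  have hD : 0 < D := lt_of_lt_of_le hD₀ hDD₀
  have hκD : 0 < κ * D := mul_pos (by linarith) hD
  have hdeg : ∀ v, (dg (G'.sub U).A Finset.univ v : ℝ) ≤ κ * D := fun v => (hreg v).2
  have hcV : 0 < Fintype.card {x // x ∈ U} := by rw [hcardU]; exact hUpos
  have key : (G'.sub U).CF0 (H.Lt t) := by
    by_contra hno
    have hhb := h11 _ _ (G'.sub U) (κ * D) hcV hκD hdeg hno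
    obtain ⟨m, m', ρ, S, hAD, hS⟩ := h8 _ _ (G'.sub U) D hcV ((hCL3 V L b s G' U).1 hT) hreg hDD₀ hhb
    rw [hcardU] at hS
    have hUr : (0 : ℝ) < (U.card : ℝ) := by linarith
    have hSne : S.Nonempty := by
      rw [Finset.nonempty_iff_ne_empty]
      intro h0
      rw [h0, Finset.card_empty, Nat.cast_zero, mul_zero] at hS
      have : 0 < c * D ^ (t + 2) := by positivity
      linarith
    obtain ⟨U', G'', hU', hU'c, hSc, hlift⟩ := hCL9 _ _ b s (G'.sub U) t q m m' ρ S (κ * D) ht hAD hSne hdeg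
    have hU'pos : 0 < U'.card := Finset.card_pos.mpr hU'
    have hU'r : (0 : ℝ) < (U'.card : ℝ) := by exact_mod_cast hU'pos
    have h10' := h10 (U.card : ℝ) (U'.card : ℝ) D hU1 hU'r hU'c hDK'
    have hbig : K * (U'.card : ℝ) ^ (1 + a) ≤ ∑ v, (dg G''.A Finset.univ v : ℝ) := by
      refine le_trans h10' ?_
      have e1 : c / q * (D ^ (t + 2) / (U.card : ℝ)) = (c * D ^ (t + 2)) / (q * (U.card : ℝ)) := by
        field_simp
      rw [e1, div_le_iff₀ (mul_pos hqr hUr)]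
      have e2 : (U.card : ℝ) * (S.card : ℝ) ≤ (U.card : ℝ) * (q * ∑ v, (dg G''.A Finset.univ v : ℝ)) :=
        mul_le_mul_of_nonneg_left hSc hUr.le
      calc c * D ^ (t + 2) ≤ (U.card : ℝ) * (S.card : ℝ) := hS
        _ ≤ (U.card : ℝ) * (q * ∑ v, (dg G''.A Finset.univ v : ℝ)) := e2
        _ = (∑ v, (dg G''.A Finset.univ v : ℝ)) * (q * (U.card : ℝ)) := by ring
    have hcV' : 0 < Fintype.card {x // x ∈ U'} := by
      rw [Fintype.card_coe U']
      exact hU'pos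
    have hcf' : G''.CF H := by
      apply hH _ _ G'' hcV'
      rw [Fintype.card_coe U']
      exact hbig
    exact hno (hlift H hcf')
  have k2 : G'.CF0 (H.Lt t) := ((hCL3 V L b s G' U).2 (H.Lt t)).1 key
  have k3 : G.CF0 (H.Lt t) := (hcf (H.Lt t)).1 k2
  exact hAL12 V L b s G H t ht hE k3

end Pool.Agent.F2
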